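import Pool.Agent.H164R2.Edges
import Pool.Agent.Helper998.Near.InsideDom

set_option autoImplicit false

open Finset

namespace Pool.Agent.Results.MP_ff63d6_co.FullAnswer

open Pool.Agent.Helper347.Sab

/-!
Full answer: in a cubic multigraph of circumference at least n - 1 every circuit C belongs to a
circuit double cover.

Let A be a circuit of length at least n - 1. If the vertex missed by A (if any) lies on C, then A
is a spanning closed trail of G/E(C), so G/E(C) has a nowhere-zero 4-flow. The main point
(Pool.Agent.H164R2) is that this suffices: rescale the flow on every bridge of C by a nonzero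
element of the field F_4; the number of rescalings for which the zero edges of the flow on C extend
to an even subgraph avoiding the remaining edges of C is odd, because it is the number of
nowhere-zero vectors x with (M x)_i in {0, x_i} for a Hermitian matrix M over F_4. Otherwise the
vertices of C lie on A, and the case is known.
-/

/-- The circumference of G is at least (number of vertices) - 1: some circuit has at least
(number of vertices) - 1 edges. -/
def NearHamiltonian {V E : Type} [Fintype V] [DecidableEq V] [Fintype E] [DecidableEq E]
    (G : MGraph V E) : Prop :=
  ∃ A : Finset E, IsCircuit G A ∧ Fintype.card V ≤ A.card + 1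

/-- Let G be a cubic multigraph of circumference at least n - 1. Then every circuit C of G belongs
to a circuit double cover of G. -/
theorem result {V E : Type} [Fintype V] [DecidableEq V] [Fintype E] [DecidableEq E]
    (G : MGraph V E) (hG : IsCubic G) (hn : NearHamiltonian G)
    (C : Finset E) (hC : IsCircuit G C) :
    ∃ F : Multiset (Finset E), IsCDC G F ∧ C ∈ F := by
  obtain ⟨A, hA, hlen⟩ := id hn
  by_cases hv : ∀ v, dg G A v = 0 → dg G C v = 2
  · obtain ⟨B, hB1, hB2⟩ := Pool.Agent.Helper998.Near.trail_flow G C A
      (Pool.Agent.Helper998.Near.ev_circuit G A hA)
      (Pool.Agent.Helper998.Near.union_connected G C A hA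
        (Pool.Agent.Helper998.Near.one_off G A hA hlen) hv)
    exact Pool.Agent.H164R2.strong_circuit G hG C hC A B
      (Pool.Agent.Helper998.Near.ev_circuit G A hA) hB1 hB2
  · push Not at hv
    obtain ⟨x, hx, hCx⟩ := hv
    refine MP_ff63d6_co.InsideDominating.result G hG hn C hC ⟨A, hA, ?_, Or.inr (by omega)⟩
    intro v hv2
    rcases hA.2.1 v with h0 | h0
    · have := Pool.Agent.Helper998.Near.one_off G A hA hlen x v hx h0
      subst this
      exact absurd hv2 hCx
    · exact h0

end Pool.Agent.Results.MP_ff63d6_co.FullAnswer
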